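import Pool.Agent.U293.FD.Sub

/-!
# Automorphisms of `D[x, y]` for domains `D`
-/

set_option autoImplicit false

namespace Pool.Agent.U293.FD

open MvPolynomial Pool.Agent.U293.PA Pool.Agent.U293.EP Pool.Agent.U293.FC
open Pool.Agent.Y110.FJ (ClosedE)
open Pool.Agent.N509.TX (AcylF of_fg C_stab)

variable {C : ∀ (G : Type) [Group G], Prop}

section

variable {K D : Type} [Field K] [CommRing D] [Algebra D K] [IsDomain D] [IsNoetherianRing D]
  [IsFractionRing D K]

/-- multiples of all vectors are in the lattice -/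
theorem exists_mul_mem' (g : Au K) : ∃ d : D, d ≠ 0 ∧ ∀ i : Fin 2, d • (Pi.single i 1 : Fin 2 → K) ∈ LL D g := by
  classical
  obtain ⟨⟨d, hd⟩, hb⟩ := IsLocalization.exist_integer_multiples_of_finset (nonZeroDivisors D)
    ((g (X 0)).coeffs ∪ (g (X 1)).coeffs)
  have key : ∀ P : Rg K, P.coeffs ⊆ (g (X 0)).coeffs ∪ (g (X 1)).coeffs →
      C (algebraMap D K d) * P ∈ SR (Dh D K) := by
    intro P hP
    rw [mem_SR]
    intro m
    rw [coeff_C_mul]
    by_cases hm : P.coeff m = 0
    · rw [hm, mul_zero]
      exact zero_mem _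
    · obtain ⟨r, hr⟩ := hb _ (hP (MvPolynomial.mem_coeffs_iff.2 ⟨m, mem_support_iff.2 hm, rfl⟩))
      refine ⟨r, ?_⟩
      rw [hr, Algebra.smul_def]
  refine ⟨d, nonZeroDivisors.ne_zero hd, fun i => ⟨0, ?_⟩⟩
  have h1 : lf (d • (Pi.single i 1 : Fin 2 → K)) = C (algebraMap D K d) * X i := by
    rw [← algebraMap_smul K d, lf_smul]
    congr 1
    unfold lf
    fin_cases i
    · simp
    · simp
  rw [h1, map_mul, gC, C_0, add_zero]
  apply key
  fin_cases i
  · exact Finset.subset_union_left
  · exact Finset.subset_union_right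

theorem span_LL' (g : Au K) : Submodule.span K (LL D g : Set (Fin 2 → K)) = ⊤ := by
  obtain ⟨d, hd, h⟩ := exists_mul_mem' (D := D) g
  rw [eq_top_iff]
  intro v _
  have h1 : v = ∑ i, ((algebraMap D K d)⁻¹ * v i) • (d • (Pi.single i 1 : Fin 2 → K)) := by
    have hd' : algebraMap D K d ≠ 0 := by
      rw [Ne, FaithfulSMul.algebraMap_eq_zero_iff]
      exact hd
    funext j
    rw [Finset.sum_apply, Fin.sum_univ_two]
    simp only [Pi.smul_apply, ← algebraMap_smul K d, smul_eq_mul]
    fin_cases j
    · simp
      field_simp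
    · simp
      field_simp
  rw [h1]
  exact Submodule.sum_mem _ fun i _ => Submodule.smul_mem _ _ (Submodule.subset_span (h i))

theorem fg_LL' (g : Au K) : (LL D g).FG := by
  classical
  let N0 : Submodule D K := LinearMap.range (Algebra.linearMap D K)
  have hN0 : IsNoetherian D N0 := by
    exact isNoetherian_of_surjective (Algebra.linearMap D K).rangeRestrict
      (LinearMap.range_eq_top.2 (Algebra.linearMap D K).surjective_rangeRestrict)
  let I : Type := {s : Fin 2 →₀ ℕ // s ∈ ((g (X 0)).support ∪ (g (X 1)).support).erase 0}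
  let θ : ∀ s : Fin 2 →₀ ℕ, (Fin 2 → K) →ₗ[D] K := fun s =>
    { toFun := fun u => (g (lf u)).coeff s
      map_add' := fun u v => by rw [lf_add, map_add, coeff_add]
      map_smul' := fun r u => by
        rw [← algebraMap_smul K r u, lf_smul, map_mul, gC, coeff_C_mul, Algebra.smul_def]
        rfl }
  let Θ : LL D g →ₗ[D] (I → N0) := LinearMap.pi fun s =>
    ((θ s.1).comp (LL D g).subtype).codRestrict N0 (by
      rintro ⟨u, c, hc⟩
      have h1 := mem_SR.1 hc s.1
      have hs : s.1 ≠ 0 := (Finset.mem_erase.1 s.2).1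
      rw [coeff_add, coeff_C, if_neg (Ne.symm hs), add_zero] at h1
      obtain ⟨r, hr⟩ := h1
      exact ⟨r, hr⟩)
  have hΘ : Function.Injective Θ := by
    rw [injective_iff_map_eq_zero]
    rintro ⟨u, hu⟩ h0
    have h1 : ∀ s : Fin 2 →₀ ℕ, s ≠ 0 → (g (lf u)).coeff s = 0 := by
      intro s hs
      by_cases hmem : s ∈ (g (X 0)).support ∪ (g (X 1)).support
      · have h2 := congrArg (fun f : I → N0 => ((f ⟨s, Finset.mem_erase.2 ⟨hs, hmem⟩⟩ : N0) : K)) h0
        exact h2
      · rw [Finset.mem_union, not_or, notMem_support_iff, notMem_support_iff] at hmem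
        unfold lf
        rw [map_add, map_mul, map_mul, gC, gC, coeff_add, coeff_C_mul, coeff_C_mul, hmem.1, hmem.2,
          mul_zero, mul_zero, add_zero]
    have h3 : g (lf u) = C ((g (lf u)).coeff 0) := by
      ext s
      rw [coeff_C]
      split_ifs with hs
      · rw [hs]
      · exact h1 s (Ne.symm hs)
    have h4 : lf u = C ((g (lf u)).coeff 0) := by
      apply g.injective
      rw [gC]
      exact h3
    have h5 : u = 0 := by
      refine lf_eq (c := 0) (c' := (g (lf u)).coeff 0) ?_
      rw [C_0, add_zero]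
      have h6 : lf (0 : Fin 2 → K) = 0 := by
        unfold lf
        simp
      rw [h6, zero_add]
      exact h4
    exact Subtype.ext h5
  have : Module.Finite D (LL D g) := Module.Finite.of_injective Θ hΘ
  exact Module.Finite.iff_fg.1 this

end

section

variable {K D : Type} [Field K] [CommRing D] [Algebra D K] [IsDomain D]

theorem C_DR' [CharZero K] (hC : ClosedE C) (hAc : AcylF C)
    (hS : ∀ (G : Type) [Group G], Group.IsSolvable G → C G)
    (hSG : ∀ g : Au K, C (SG D g)) : C ↥(DR (Dh D K)) := by
  classical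
  refine of_fg hC fun H hH => ?_
  obtain ⟨T, hT⟩ := (Group.fg_iff_subgroup_fg _).1 hH
  have h1 : ∀ t : ↥(DR (Dh D K)), ∃ S : Finset K, ∀ R : Subring K, (S : Set K) ⊆ R →
      (t : Au K) ∈ (affG ⊤ ⊓ DR R) ⊔ (triG ⊤ ⊓ DR R) := fun t => exists_R (by
        rw [tame_all]
        exact Subgroup.mem_top _)
  choose S hSS using h1
  obtain ⟨S0, hS0⟩ : ∃ S0 : Finset K, S0 = T.biUnion S := ⟨_, rfl⟩
  obtain ⟨R, hR⟩ : ∃ R : Subring K, R = (Algebra.adjoin ℚ (S0 : Set K)).toSubring := ⟨_, rfl⟩
  have hSR : (S0 : Set K) ⊆ R := by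
    rw [hR]
    exact Algebra.subset_adjoin
  have hHR : ∀ h ∈ H, (h : Au K) ∈ (affG ⊤ ⊓ DR R) ⊔ (triG ⊤ ⊓ DR R) := by
    intro h hh
    rw [← hT] at hh
    induction hh using Subgroup.closure_induction with
    | mem x hx =>
      refine hSS x R (subset_trans ?_ hSR)
      rw [hS0]
      exact Finset.coe_subset.2 (Finset.subset_biUnion_of_mem S hx)
    | one => exact one_mem _
    | mul x y _ _ hx hy => exact mul_mem hx hy
    | inv x _ hx => exact inv_mem hx
  obtain ⟨A, hAdef⟩ : ∃ A : Subgroup (Au K), A = affG ⊤ ⊓ DR R := ⟨_, rfl⟩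
  obtain ⟨B, hBdef⟩ : ∃ B : Subgroup (Au K), B = triG ⊤ ⊓ DR R := ⟨_, rfl⟩
  have hpair : Pair A B := by
    rw [hAdef, hBdef]
    exact pair_R (DR R)
  have hHAB : ∀ h ∈ H, (h : Au K) ∈ A ⊔ B := by
    rw [hAdef, hBdef]
    exact hHR
  let f : H →* GG A B :=
    { toFun := fun h => ⟨((h : ↥(DR (Dh D K))) : Au K), hHAB h h.2⟩
      map_one' := rfl
      map_mul' := fun _ _ => rfl }
  have hf : Function.Injective f := by
    intro x y hxy
    have := congrArg Subtype.val hxy
    exact Subtype.ext (Subtype.ext this)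
  have hmem : ∀ y : f.range, ((y : GG A B) : Au K) ∈ DR (Dh D K) := by
    rintro ⟨_, x, rfl⟩
    exact (x : ↥(DR (Dh D K))).2
  have hfg : Group.FG f.range := Group.fg_of_surjective f.rangeRestrict_surjective
  have hrange : C f.range := by
    refine hAc f.range (Vt A B) (tr A B) hfg (tr_tree hpair)
      (fun g u v huv => tr_act (g : GG A B) u v huv)
      (fun g u v huv => tr_inv (g : GG A B) u v huv)
      ⟨7, {z : K | z ∈ Algebra.adjoin ℚ (S0 : Set K) ∧ ∃ n : ℕ, 0 < n ∧ z ^ n = 1}.ncard, ?_⟩
      fun v => ?_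
    · intro u w p hp hlen F hF
      have h1 := acyl hpair {z : K | z ∈ Algebra.adjoin ℚ (S0 : Set K) ∧ ∃ n : ℕ, 0 < n ∧ z ^ n = 1}
        (fin_mu S0) (by
          intro t ht n hn htn
          rw [hBdef] at ht
          refine ⟨?_, n, hn, htn⟩
          have := (mem_SR.1 (ht.2.1 1)) (Finsupp.single 1 1)
          rw [hR] at this
          exact this) u w p hp hlen (F.map ⟨Subtype.val, Subtype.val_injective⟩) (by
        intro g hg x hx
        rw [Finset.mem_map] at hg
        obtain ⟨g', hg', rfl⟩ := hg
        exact hF g' hg' x hx)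
      rwa [Finset.card_map] at h1
    · rcases cases_v v with ⟨x, rfl⟩ | ⟨x, rfl⟩
      · let φ : ↥(MulAction.stabilizer f.range (vA A B x)) →* SG D (x : Au K) :=
          { toFun := fun y => ⟨(((y : f.range) : GG A B) : Au K), hmem _, by
              have h2 : ((y : f.range) : GG A B) • vA A B x = vA A B x := y.2
              have h3 := hpair.hA (fixA h2)
              change MulAut.conj (x : Au K)⁻¹ (((y : f.range) : GG A B) : Au K) ∈ affG (⊤ : Subfield K)
              rw [MulAut.conj_apply, inv_inv]
              exact h3⟩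
            map_one' := rfl
            map_mul' := fun _ _ => rfl }
        refine hC.base.of_injective _ _ φ ?_ (hSG _)
        intro y z hyz
        have := congrArg Subtype.val hyz
        exact Subtype.ext (Subtype.ext (Subtype.ext this))
      · let φ : ↥(MulAction.stabilizer f.range (vB A B x)) →* triG (⊤ : Subfield K) :=
          { toFun := fun y => ⟨(x : Au K)⁻¹ * (((y : f.range) : GG A B) : Au K) * (x : Au K), by
              have h2 : ((y : f.range) : GG A B) • vB A B x = vB A B x := y.2
              exact hpair.hB (fixB h2)⟩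
            map_one' := by
              apply Subtype.ext
              change (x : Au K)⁻¹ * 1 * (x : Au K) = 1
              group
            map_mul' := fun y z => by
              apply Subtype.ext
              change (x : Au K)⁻¹ * ((((y : f.range) : GG A B) : Au K) *
                (((z : f.range) : GG A B) : Au K)) * (x : Au K) =
                ((x : Au K)⁻¹ * (((y : f.range) : GG A B) : Au K) * (x : Au K)) *
                ((x : Au K)⁻¹ * (((z : f.range) : GG A B) : Au K) * (x : Au K))
              group }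
        refine hC.base.of_injective _ _ φ ?_ (hS _ tri_solvable)
        intro y z hyz
        have h2 := congrArg Subtype.val hyz
        have h3 : (x : Au K)⁻¹ * (((y : f.range) : GG A B) : Au K) * (x : Au K) =
            (x : Au K)⁻¹ * (((z : f.range) : GG A B) : Au K) * (x : Au K) := h2
        have h4 := mul_left_cancel (mul_right_cancel h3)
        exact Subtype.ext (Subtype.ext (Subtype.ext h4))
  exact hC.base.of_injective _ _ f.rangeRestrict
    (fun x y hxy => hf (congrArg Subtype.val hxy)) hrange

end

/-- the action on the lattice -/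
noncomputable def lamG {D : Type} [CommRing D] [IsDomain D] (g : Au (FractionRing D)) :
    SG D g →* Matrix.GeneralLinearGroup (Fin 2) (FractionRing D) :=
  (Units.mapEquiv (LinearMap.toMatrixAlgEquiv' (R := FractionRing D) (n := Fin 2)).toMulEquiv).toMonoidHom.comp
    (MonoidHom.toHomUnits
      { toFun := fun h => lam (g⁻¹ * (h : Au (FractionRing D)) * g)
        map_one' := by
          have : g⁻¹ * ((1 : SG D g) : Au (FractionRing D)) * g = 1 := by
            rw [Subgroup.coe_one]
            group
          rw [this, lam_one]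
        map_mul' := fun x y => by
          have : g⁻¹ * ((x * y : SG D g) : Au (FractionRing D)) * g =
              (g⁻¹ * (x : Au (FractionRing D)) * g) * (g⁻¹ * (y : Au (FractionRing D)) * g) := by
            rw [Subgroup.coe_mul]
            group
          rw [this, lam_mul (SG_aff x.2) (SG_aff y.2)] })

theorem lamG_val {D : Type} [CommRing D] [IsDomain D] (g : Au (FractionRing D)) (h : SG D g) :
    (lamG g h).1 = LinearMap.toMatrixAlgEquiv' (lam (g⁻¹ * (h : Au (FractionRing D)) * g)) := rfl

theorem lamG_mem {D : Type} [CommRing D] [IsDomain D] (g : Au (FractionRing D)) (h : SG D g) :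
    lamG g h ∈ GLL (LL D g) := by
  have key : ∀ h : SG D g, ∀ v ∈ LL D g, (lamG g h).1.mulVec v ∈ LL D g := by
    intro h v hv
    rw [lamG_val]
    have h1 := lam_LL h.2 hv
    have h2 : (LinearMap.toMatrixAlgEquiv' (lam (g⁻¹ * (h : Au (FractionRing D)) * g))).mulVec v =
        lam (g⁻¹ * (h : Au (FractionRing D)) * g) v := by
      have h3 := LinearMap.toMatrix'_mulVec (lam (g⁻¹ * (h : Au (FractionRing D)) * g)) v
      exact h3
    rw [h2]
    exact h1
  refine ⟨key h, ?_⟩
  rw [← map_inv]
  exact key h⁻¹

theorem C_SG' (hC : ClosedE C) (hS : ∀ (G : Type) [Group G], Group.IsSolvable G → C G)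
    {D : Type} [CommRing D] [IsDomain D] [IsNoetherianRing D] (hD : LatC C D)
    (g : Au (FractionRing D)) : C (SG D g) := by
  refine of_solv_ker hC hS ((lamG g).codRestrict (GLL (LL D g)) (lamG_mem g)) ?_
    (hD _ (fg_LL' g) (span_LL' g))
  have key : ∀ x : ((lamG g).codRestrict (GLL (LL D g)) (lamG_mem g)).ker,
      lam (g⁻¹ * ((x : SG D g) : Au (FractionRing D)) * g) = 1 := by
    intro x
    have h1 : lamG g (x : SG D g) = 1 := congrArg Subtype.val ((MonoidHom.mem_ker).1 x.2)
    have h2 := congrArg Units.val h1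
    rw [lamG_val] at h2
    apply (LinearMap.toMatrixAlgEquiv' (R := FractionRing D) (n := Fin 2)).injective
    rw [h2, map_one]
    rfl
  apply Group.isSolvable_of_comm
  intro x y
  apply Subtype.ext
  apply Subtype.ext
  have h1 := lam_comm (SG_aff (x : SG D g).2) (SG_aff (y : SG D g).2) (key x) (key y)
  change ((x : SG D g) : Au (FractionRing D)) * ((y : SG D g) : Au (FractionRing D)) =
    ((y : SG D g) : Au (FractionRing D)) * ((x : SG D g) : Au (FractionRing D))
  have h2 : ∀ p q : Au (FractionRing D), p * q = g * ((g⁻¹ * p * g) * (g⁻¹ * q * g)) * g⁻¹ := by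
    intro p q
    group
  rw [h2, h1, ← h2]

/-- **Automorphisms of `D[x, y]`, `D` a noetherian domain of characteristic zero.** -/
theorem main_noeth (hC : ClosedE C) (hAc : AcylF C)
    (hS : ∀ (G : Type) [Group G], Group.IsSolvable G → C G)
    (D : Type) [CommRing D] [IsDomain D] [IsNoetherianRing D] [CharZero D]
    (hD : LatC C D) : C (An (Fin 2) D) := by
  have hinj : Function.Injective (algebraMap D (FractionRing D)) := IsFractionRing.injective _ _
  have : CharZero (FractionRing D) := charZero_of_injective_algebraMap hinj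
  have hSR : ∀ P : MvPolynomial (Fin 2) D,
      map (algebraMap D (FractionRing D)) P ∈ SR (Dh D (FractionRing D)) := by
    intro P
    rw [mem_SR]
    intro m
    rw [coeff_map]
    exact ⟨_, rfl⟩
  let f : An (Fin 2) D →* ↥(DR (Dh D (FractionRing D))) :=
    { toFun := fun g => ⟨bc (algebraMap D (FractionRing D)) g, fun i => by
        change bc (algebraMap D (FractionRing D)) g (X i) ∈ _
        rw [bc_X]
        exact hSR _, fun i => by
        have h1 : (bc (algebraMap D (FractionRing D)) g)⁻¹ =
          bc (algebraMap D (FractionRing D)) g⁻¹ := (map_inv _ _).symm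
        change (bc (algebraMap D (FractionRing D)) g)⁻¹ (X i) ∈ _
        rw [h1, bc_X]
        exact hSR _⟩
      map_one' := Subtype.ext (map_one _)
      map_mul' := fun x y => Subtype.ext (map_mul _ _ _) }
  refine hC.base.of_injective _ _ f ?_ (C_DR' (K := FractionRing D) hC hAc hS (C_SG' hC hS hD))
  intro x y hxy
  exact bc_injective hinj (congrArg Subtype.val hxy)

end Pool.Agent.U293.FD
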