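import Pool.Agent.U293.FC.Alg
import Pool.Agent.U709.Fld

/-!
# Groups of automorphisms of lattices of rank two
-/

set_option autoImplicit false

namespace Pool.Agent.U293.FD

open Matrix
open Pool.Agent.Y110.FJ (ClosedE)

variable {C : ∀ (G : Type) [Group G], Prop}

section

variable {D K : Type} [CommRing D] [Field K] [Algebra D K]

/-- the invertible matrices of degree two which map a submodule of `K ^ 2` onto itself -/
def GLL (L : Submodule D (Fin 2 → K)) : Subgroup (GL (Fin 2) K) where
  carrier := {x | (∀ v ∈ L, x.1 *ᵥ v ∈ L) ∧ ∀ v ∈ L, (x⁻¹).1 *ᵥ v ∈ L}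
  mul_mem' := by
    rintro x y ⟨hx, hx'⟩ ⟨hy, hy'⟩
    refine ⟨fun v hv => ?_, fun v hv => ?_⟩
    · change (x.1 * y.1) *ᵥ v ∈ L
      rw [← Matrix.mulVec_mulVec]
      exact hx _ (hy _ hv)
    · rw [_root_.mul_inv_rev]
      change ((y⁻¹).1 * (x⁻¹).1) *ᵥ v ∈ L
      rw [← Matrix.mulVec_mulVec]
      exact hy' _ (hx' _ hv)
  one_mem' := by
    refine ⟨fun v hv => ?_, fun v hv => ?_⟩
    · change (1 : Matrix (Fin 2) (Fin 2) K) *ᵥ v ∈ L
      rwa [Matrix.one_mulVec]
    · rw [inv_one]
      change (1 : Matrix (Fin 2) (Fin 2) K) *ᵥ v ∈ L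
      rwa [Matrix.one_mulVec]
  inv_mem' := by
    rintro x ⟨hx, hx'⟩
    exact ⟨hx', by rwa [inv_inv]⟩

theorem mem_GLL {L : Submodule D (Fin 2 → K)} {x : GL (Fin 2) K} :
    x ∈ GLL L ↔ (∀ v ∈ L, x.1 *ᵥ v ∈ L) ∧ ∀ v ∈ L, (x⁻¹).1 *ᵥ v ∈ L := Iff.rfl

theorem ext_L {L : Submodule D (Fin 2 → K)} (hL : Submodule.span K (L : Set (Fin 2 → K)) = ⊤)
    {A B : Matrix (Fin 2) (Fin 2) K} (h : ∀ v ∈ L, A *ᵥ v = B *ᵥ v) : A = B := by
  have h1 : ∀ v : Fin 2 → K, A *ᵥ v = B *ᵥ v := by
    intro v
    have hv : v ∈ Submodule.span K (L : Set (Fin 2 → K)) := by rw [hL]; exact Submodule.mem_top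
    induction hv using Submodule.span_induction with
    | mem x hx => exact h x hx
    | zero => rw [Matrix.mulVec_zero, Matrix.mulVec_zero]
    | add x y _ _ hx hy => rw [Matrix.mulVec_add, Matrix.mulVec_add, hx, hy]
    | smul a x _ hx => rw [Matrix.mulVec_smul, Matrix.mulVec_smul, hx]
  exact Matrix.ext_of_mulVec_single fun i => h1 _

/-- the action on the lattice -/
def rr (L : Submodule D (Fin 2 → K)) : GLL L →* Module.End D L where
  toFun x :=
    { toFun := fun v => ⟨x.1.1 *ᵥ v.1, x.2.1 _ v.2⟩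
      map_add' := fun v w => Subtype.ext (by
        change x.1.1 *ᵥ (v.1 + w.1) = x.1.1 *ᵥ v.1 + x.1.1 *ᵥ w.1
        rw [Matrix.mulVec_add])
      map_smul' := fun r v => Subtype.ext (by
        change x.1.1 *ᵥ (r • v.1) = r • (x.1.1 *ᵥ v.1)
        rw [← algebraMap_smul K r, Matrix.mulVec_smul, algebraMap_smul]) }
  map_one' := by
    apply LinearMap.ext
    intro v
    apply Subtype.ext
    change (1 : Matrix (Fin 2) (Fin 2) K) *ᵥ v.1 = v.1
    rw [Matrix.one_mulVec]
  map_mul' x y := by
    apply LinearMap.ext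
    intro v
    apply Subtype.ext
    change (x.1.1 * y.1.1) *ᵥ v.1 = x.1.1 *ᵥ (y.1.1 *ᵥ v.1)
    rw [Matrix.mulVec_mulVec]

theorem rr_apply (L : Submodule D (Fin 2 → K)) (x : GLL L) (v : L) :
    ((rr L x v : L) : Fin 2 → K) = x.1.1 *ᵥ v.1 := rfl

theorem rr_inj {L : Submodule D (Fin 2 → K)} (hL : Submodule.span K (L : Set (Fin 2 → K)) = ⊤)
    {x y : GLL L} (h : rr L x = rr L y) : x = y := by
  apply Subtype.ext
  apply Units.ext
  refine ext_L hL fun v hv => ?_
  have := congrArg (fun f : Module.End D L => ((f ⟨v, hv⟩ : L) : Fin 2 → K)) h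
  exact this

/-- the matrix of the action with respect to a basis -/
noncomputable def toG {L : Submodule D (Fin 2 → K)} (b : Module.Basis (Fin 2) D L) :
    GLL L →* GL (Fin 2) D :=
  (Units.mapEquiv (LinearMap.toMatrixAlgEquiv b).toMulEquiv).toMonoidHom.comp
    (MonoidHom.toHomUnits (rr L))

theorem toG_val {L : Submodule D (Fin 2 → K)} (b : Module.Basis (Fin 2) D L) (x : GLL L) :
    (toG b x).1 = LinearMap.toMatrixAlgEquiv b (rr L x) := rfl

theorem toG_inj {L : Submodule D (Fin 2 → K)} (hL : Submodule.span K (L : Set (Fin 2 → K)) = ⊤)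
    (b : Module.Basis (Fin 2) D L) : Function.Injective (toG b) := by
  intro x y hxy
  apply rr_inj hL
  apply (LinearMap.toMatrixAlgEquiv b).injective
  rw [← toG_val, ← toG_val, hxy]

theorem toG_repr {L : Submodule D (Fin 2 → K)} (b : Module.Basis (Fin 2) D L) (x : GLL L) (v : L) :
    b.equivFun (rr L x v) = (toG b x).1 *ᵥ b.equivFun v := by
  rw [toG_val]
  exact (LinearMap.toMatrix_mulVec_repr b b (rr L x) v).symm

end

/-- a lattice over a principal ideal domain is free -/
theorem basis_of_lat {D K : Type} [CommRing D] [Field K] [Algebra D K] [IsDomain D]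
    [IsPrincipalIdealRing D] [IsFractionRing D K] (L : Submodule D (Fin 2 → K)) (hfg : L.FG)
    (hL : Submodule.span K (L : Set (Fin 2 → K)) = ⊤) : Nonempty (Module.Basis (Fin 2) D L) := by
  have h1 : Submodule.IsLattice K L := ⟨hfg, hL⟩
  have h2 : FaithfulSMul D K := inferInstance
  have h3 : Module.IsTorsionFree D K := inferInstance
  have h4 : Module.Free D L := Submodule.IsLattice.free (K := K) L
  have h5 : Module.finrank D L = 2 := by
    rw [Submodule.IsLattice.finrank_of_pi (K := K) L]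
    simp
  exact ⟨Module.finBasisOfFinrankEq D L h5⟩

/-- `C` contains the groups of automorphisms of all lattices of rank two over the domain `D` -/
def LatC (C : ∀ (G : Type) [Group G], Prop) (D : Type) [CommRing D] [IsDomain D] : Prop :=
  ∀ L : Submodule D (Fin 2 → FractionRing D), L.FG →
    Submodule.span (FractionRing D) (L : Set (Fin 2 → FractionRing D)) = ⊤ → C (GLL L)

/-- principal ideal domains -/
theorem LatC_pid (hC : ClosedE C) (D : Type) [CommRing D] [IsDomain D] [IsPrincipalIdealRing D]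
    (h : C (GL (Fin 2) D)) : LatC C D := by
  intro L hfg hL
  obtain ⟨b⟩ := basis_of_lat L hfg hL
  exact hC.base.of_injective _ _ (toG b) (toG_inj hL b) h

theorem top_of_single {K : Type} [Field K] {S : Submodule K (Fin 2 → K)}
    (h : ∀ i, (Pi.single i 1 : Fin 2 → K) ∈ S) : S = ⊤ := by
  rw [eq_top_iff]
  intro v _
  have h1 : v = v 0 • (Pi.single 0 1 : Fin 2 → K) + v 1 • (Pi.single 1 1 : Fin 2 → K) := by
    funext j
    fin_cases j <;> simp
  rw [h1]
  exact S.add_mem (S.smul_mem _ (h 0)) (S.smul_mem _ (h 1))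

/-- the matrices over `D` -/
theorem LatC_GL (hC : ClosedE C) {D : Type} [CommRing D] [IsDomain D] (h : LatC C D) :
    C (GL (Fin 2) D) := by
  have hinj : Function.Injective (algebraMap D (FractionRing D)) := IsFractionRing.injective _ _
  obtain ⟨L, hLdef⟩ : ∃ L : Submodule D (Fin 2 → FractionRing D), L = LinearMap.range
      (LinearMap.compLeft (Algebra.linearMap D (FractionRing D)) (Fin 2)) := ⟨_, rfl⟩
  have hmem : ∀ w : Fin 2 → D, (fun i => algebraMap D (FractionRing D) (w i)) ∈ L := by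
    intro w
    rw [hLdef]
    exact ⟨w, rfl⟩
  have hfg : L.FG := by
    rw [hLdef]
    exact Module.Finite.iff_fg.1 inferInstance
  have hL : Submodule.span (FractionRing D) (L : Set (Fin 2 → FractionRing D)) = ⊤ := by
    refine top_of_single fun i => Submodule.subset_span ?_
    have h1 := hmem (Pi.single i 1)
    have h2 : (fun j => algebraMap D (FractionRing D) ((Pi.single i 1 : Fin 2 → D) j)) =
        Pi.single i 1 := by
      funext j
      rw [Pi.single_apply, Pi.single_apply]
      split_ifs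
      · exact map_one _
      · exact map_zero _
    rwa [h2] at h1
  refine hC.base.of_injective _ _ ((GeneralLinearGroup.map (n := Fin 2)
    (algebraMap D (FractionRing D))).codRestrict (GLL L) ?_) ?_ (h L hfg hL)
  · intro x
    have key : ∀ x : GL (Fin 2) D, ∀ v ∈ L,
        (GeneralLinearGroup.map (algebraMap D (FractionRing D)) x).1 *ᵥ v ∈ L := by
      intro x v hv
      rw [hLdef] at hv
      obtain ⟨w, rfl⟩ := hv
      have h1 := hmem (x.1 *ᵥ w)
      have h2 : (fun i => algebraMap D (FractionRing D) ((x.1 *ᵥ w) i)) =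
          (GeneralLinearGroup.map (algebraMap D (FractionRing D)) x).1 *ᵥ
          (LinearMap.compLeft (Algebra.linearMap D (FractionRing D)) (Fin 2) w) := by
        funext i
        exact RingHom.map_mulVec _ _ _ _
      rw [← h2]
      exact h1
    refine ⟨key x, ?_⟩
    rw [← map_inv]
    exact key x⁻¹
  · intro a b hab
    exact Pool.Agent.U709.map_inj _ hinj (congrArg Subtype.val hab)

end Pool.Agent.U293.FD
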