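import Pool.Agent.U293.FD.Glat

/-!
# Lattices of rank two: extension of scalars, polynomial rings
-/

set_option autoImplicit false

namespace Pool.Agent.U293.FD

open Matrix
open Pool.Agent.Y110.FJ (ClosedE)

variable {C : ∀ (G : Type) [Group G], Prop}

section

variable {D K D' K' : Type} [CommRing D] [Field K] [Algebra D K] [CommRing D'] [Field K']
  [Algebra D' K']

/-- the lattice generated over the larger ring -/
def extL (D' : Type) [CommRing D'] [Algebra D' K'] (g : K →+* K') (L : Submodule D (Fin 2 → K)) :
    Submodule D' (Fin 2 → K') :=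
  Submodule.span D' ((fun (v : Fin 2 → K) (i : Fin 2) => g (v i)) '' (L : Set (Fin 2 → K)))

theorem mem_extL (g : K →+* K') {L : Submodule D (Fin 2 → K)} {v : Fin 2 → K} (hv : v ∈ L) :
    (fun i => g (v i)) ∈ extL D' g L := Submodule.subset_span ⟨v, hv, rfl⟩

theorem comp_smul (f : D →+* D') (g : K →+* K')
    (hfg : ∀ r, g (algebraMap D K r) = algebraMap D' K' (f r)) (r : D) (x : Fin 2 → K) :
    (fun i : Fin 2 => g ((r • x) i)) = f r • fun i => g (x i) := by
  funext i
  rw [Pi.smul_apply, Pi.smul_apply, Algebra.smul_def, Algebra.smul_def, map_mul, hfg]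

theorem extL_fg (f : D →+* D') (g : K →+* K')
    (hfg : ∀ r, g (algebraMap D K r) = algebraMap D' K' (f r)) {L : Submodule D (Fin 2 → K)}
    (hL : L.FG) : (extL D' g L).FG := by
  classical
  obtain ⟨S, hS⟩ := hL
  refine ⟨S.image (fun (v : Fin 2 → K) (i : Fin 2) => g (v i)), le_antisymm ?_ ?_⟩
  · rw [Submodule.span_le]
    intro w hw
    rw [Finset.coe_image] at hw
    obtain ⟨v, hv, rfl⟩ := hw
    refine mem_extL g ?_
    rw [← hS]
    exact Submodule.subset_span hv
  · unfold extL
    rw [Submodule.span_le]
    rintro _ ⟨v, hv, rfl⟩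
    rw [SetLike.mem_coe] at hv
    rw [← hS] at hv
    rw [SetLike.mem_coe]
    change (fun i => g (v i)) ∈ _
    induction hv using Submodule.span_induction with
    | mem x hx =>
      apply Submodule.subset_span
      rw [Finset.coe_image]
      exact ⟨x, hx, rfl⟩
    | zero =>
      have : (fun i : Fin 2 => g ((0 : Fin 2 → K) i)) = 0 := by
        funext i
        exact map_zero g
      rw [this]
      exact Submodule.zero_mem _
    | add x y _ _ hx hy =>
      have : (fun i : Fin 2 => g ((x + y) i)) = (fun i => g (x i)) + fun i => g (y i) := by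
        funext i
        exact map_add g _ _
      rw [this]
      exact Submodule.add_mem _ hx hy
    | smul r x _ hx =>
      rw [comp_smul f g hfg]
      exact Submodule.smul_mem _ _ hx

theorem extL_top (g : K →+* K') {L : Submodule D (Fin 2 → K)}
    (hL : Submodule.span K (L : Set (Fin 2 → K)) = ⊤) :
    Submodule.span K' (extL D' g L : Set (Fin 2 → K')) = ⊤ := by
  have key : ∀ v : Fin 2 → K, (fun i => g (v i)) ∈
      Submodule.span K' (extL D' g L : Set (Fin 2 → K')) := by
    intro v
    have hv : v ∈ Submodule.span K (L : Set (Fin 2 → K)) := by rw [hL]; exact Submodule.mem_top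
    induction hv using Submodule.span_induction with
    | mem x hx => exact Submodule.subset_span (mem_extL g hx)
    | zero =>
      have : (fun i : Fin 2 => g ((0 : Fin 2 → K) i)) = 0 := by
        funext i
        exact map_zero g
      rw [this]
      exact Submodule.zero_mem _
    | add x y _ _ hx hy =>
      have : (fun i : Fin 2 => g ((x + y) i)) = (fun i => g (x i)) + fun i => g (y i) := by
        funext i
        exact map_add g _ _
      rw [this]
      exact Submodule.add_mem _ hx hy
    | smul r x _ hx =>
      have : (fun i : Fin 2 => g ((r • x) i)) = g r • fun i => g (x i) := by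
        funext i
        exact map_mul g _ _
      rw [this]
      exact Submodule.smul_mem _ _ hx
  refine top_of_single fun i => ?_
  have h1 := key (Pi.single i 1)
  have h2 : (fun j => g ((Pi.single i 1 : Fin 2 → K) j)) = Pi.single i 1 := by
    funext j
    rw [Pi.single_apply, Pi.single_apply]
    split_ifs
    · exact map_one _
    · exact map_zero _
  rwa [h2] at h1

theorem map_vec (g : K →+* K') (x : GL (Fin 2) K) (v : Fin 2 → K) :
    (GeneralLinearGroup.map g x).1 *ᵥ (fun i => g (v i)) = fun i => g ((x.1 *ᵥ v) i) := by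
  funext i
  exact (RingHom.map_mulVec g x.1 v i).symm

theorem map_extL (g : K →+* K') {L : Submodule D (Fin 2 → K)} {x : GL (Fin 2) K}
    (hx : x ∈ GLL L) : GeneralLinearGroup.map g x ∈ GLL (extL D' g L) := by
  have key : ∀ y : GL (Fin 2) K, (∀ v ∈ L, y.1 *ᵥ v ∈ L) → ∀ w ∈ extL D' g L,
      (GeneralLinearGroup.map g y).1 *ᵥ w ∈ extL D' g L := by
    intro y hy w hw
    unfold extL at hw
    induction hw using Submodule.span_induction with
    | mem w hw =>
      obtain ⟨v, hv, rfl⟩ := hw
      rw [map_vec]
      exact mem_extL g (hy v hv)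
    | zero =>
      rw [Matrix.mulVec_zero]
      exact Submodule.zero_mem _
    | add a b _ _ ha hb =>
      rw [Matrix.mulVec_add]
      exact Submodule.add_mem _ ha hb
    | smul r a _ ha =>
      rw [← algebraMap_smul K' r, Matrix.mulVec_smul, algebraMap_smul]
      exact Submodule.smul_mem _ _ ha
  refine ⟨key x hx.1, ?_⟩
  rw [← map_inv]
  exact key x⁻¹ hx.2

/-- extension of scalars -/
def extH (D' : Type) [CommRing D'] [Algebra D' K'] (g : K →+* K') (L : Submodule D (Fin 2 → K)) :
    GLL L →* GLL (extL D' g L) :=
  ((GeneralLinearGroup.map (n := Fin 2) g).comp (GLL L).subtype).codRestrict _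
    (fun x => map_extL g x.2)

theorem extH_inj (g : K →+* K') (L : Submodule D (Fin 2 → K)) :
    Function.Injective (extH D' g L) := by
  intro a b hab
  exact Subtype.ext (Pool.Agent.U709.map_inj g g.injective (congrArg Subtype.val hab))

end

section

variable {D D' : Type} [CommRing D] [IsDomain D] [CommRing D'] [IsDomain D']

/-- the map between the fields of fractions -/
noncomputable def gf (f : D →+* D') (hf : Function.Injective f) :
    FractionRing D →+* FractionRing D' :=
  IsFractionRing.lift (A := D) (g := (algebraMap D' (FractionRing D')).comp f)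
    ((IsFractionRing.injective D' (FractionRing D')).comp hf)

theorem gf_alg (f : D →+* D') (hf : Function.Injective f) (r : D) :
    gf f hf (algebraMap D (FractionRing D) r) = algebraMap D' (FractionRing D') (f r) :=
  IsFractionRing.lift_algebraMap _ _

/-- subrings -/
theorem LatC_sub (hC : ClosedE C) (f : D →+* D') (hf : Function.Injective f) (h : LatC C D') :
    LatC C D := by
  intro L hfg hL
  refine hC.base.of_injective _ _ (extH D' (gf f hf) L) (extH_inj _ _)
    (h _ (extL_fg f (gf f hf) (gf_alg f hf) hfg) (extL_top (gf f hf) hL))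

end

/-- **Polynomial rings**. -/
theorem LatC_poly (hC : ClosedE C) (hS : ∀ (G : Type) [Group G], Group.IsSolvable G → C G)
    {Q : Type} [CommRing Q] [IsDomain Q] (h : LatC C Q) : LatC C (Polynomial Q) := by
  classical
  intro L hfg hL
  have hinjQ : Function.Injective (algebraMap Q (FractionRing Q)) := IsFractionRing.injective _ _
  obtain ⟨f, hfdef⟩ : ∃ f : Polynomial Q →+* Polynomial (FractionRing Q),
      f = Polynomial.mapRingHom (algebraMap Q (FractionRing Q)) := ⟨_, rfl⟩
  have hf : Function.Injective f := by
    rw [hfdef]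
    exact Polynomial.map_injective _ hinjQ
  have hf0 : ∀ p : Polynomial Q, (f p).coeff 0 = algebraMap Q (FractionRing Q) (p.coeff 0) := by
    intro p
    rw [hfdef]
    exact Polynomial.coeff_map _ _
  obtain ⟨g, hg⟩ : ∃ g, g = gf f hf := ⟨_, rfl⟩
  have hgf : ∀ r, g (algebraMap _ _ r) = algebraMap _ (FractionRing (Polynomial (FractionRing Q)))
    (f r) := by
    rw [hg]
    exact gf_alg f hf
  obtain ⟨b⟩ := basis_of_lat (extL (Polynomial (FractionRing Q)) g L) (extL_fg f g hgf hfg)
    (extL_top g hL)
  have htop := extL_top (D' := Polynomial (FractionRing Q)) g hL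
  let Ψ : GLL L →* GL (Fin 2) (Polynomial (FractionRing Q)) :=
    (toG b).comp (extH (Polynomial (FractionRing Q)) g L)
  have hΨ : Function.Injective Ψ := (toG_inj htop b).comp (extH_inj _ _)
  let π : ↥(extL (Polynomial (FractionRing Q)) g L) → (Fin 2 → FractionRing Q) :=
    fun v i => (b.equivFun v i).coeff 0
  have hπadd : ∀ v w, π (v + w) = π v + π w := by
    intro v w
    funext i
    change (b.equivFun (v + w) i).coeff 0 = (b.equivFun v i).coeff 0 + (b.equivFun w i).coeff 0
    rw [map_add, Pi.add_apply, Polynomial.coeff_add]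
  have hπsmul : ∀ (p : Polynomial (FractionRing Q)) v, π (p • v) = p.coeff 0 • π v := by
    intro p v
    funext i
    change (b.equivFun (p • v) i).coeff 0 = p.coeff 0 * (b.equivFun v i).coeff 0
    rw [map_smul, Pi.smul_apply, smul_eq_mul, Polynomial.mul_coeff_zero]
  have hπ0 : π 0 = 0 := by
    funext i
    change (b.equivFun 0 i).coeff 0 = 0
    rw [map_zero, Pi.zero_apply, Polynomial.coeff_zero]
  let ι : L → ↥(extL (Polynomial (FractionRing Q)) g L) := fun v => ⟨fun i => g (v.1 i),
    mem_extL g v.2⟩
  have hιadd : ∀ v w, ι (v + w) = ι v + ι w := by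
    intro v w
    apply Subtype.ext
    funext i
    exact map_add g _ _
  have hιsmul : ∀ (p : Polynomial Q) v, ι (p • v) = f p • ι v := by
    intro p v
    apply Subtype.ext
    exact comp_smul f g hgf p v.1
  have hι0 : ι 0 = 0 := by
    apply Subtype.ext
    funext i
    exact map_zero g
  have hact : ∀ (x : GLL L) (v : L), (GeneralLinearGroup.map Polynomial.constantCoeff (Ψ x)).1 *ᵥ
      π (ι v) = π (ι (rr L x v)) := by
    intro x v
    have h1 : ι (rr L x v) = rr _ (extH (Polynomial (FractionRing Q)) g L x) (ι v) := by
      apply Subtype.ext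
      exact (map_vec g x.1 v.1).symm
    rw [h1]
    have h2 := toG_repr b (extH (Polynomial (FractionRing Q)) g L x) (ι v)
    funext i
    change _ = (b.equivFun (rr _ (extH (Polynomial (FractionRing Q)) g L x) (ι v)) i).coeff 0
    rw [h2]
    exact (RingHom.map_mulVec Polynomial.constantCoeff (Ψ x).1 (b.equivFun (ι v)) i).symm
  -- the image of the lattice
  obtain ⟨M, hM⟩ : ∃ M : Submodule Q (Fin 2 → FractionRing Q), M =
    Submodule.span Q (Set.range fun v : L => π (ι v)) := ⟨_, rfl⟩
  have hMmem : ∀ v : L, π (ι v) ∈ M := by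
    intro v
    rw [hM]
    exact Submodule.subset_span ⟨v, rfl⟩
  have hMfg : M.FG := by
    have hfin : Module.Finite (Polynomial Q) L := Module.Finite.iff_fg.2 hfg
    obtain ⟨S, hS'⟩ := hfin.fg_top
    refine ⟨S.image fun v => π (ι v), le_antisymm ?_ ?_⟩
    · rw [Submodule.span_le]
      intro w hw
      rw [Finset.coe_image] at hw
      obtain ⟨v, _, rfl⟩ := hw
      exact hMmem v
    · rw [hM, Submodule.span_le]
      rintro _ ⟨v, rfl⟩
      rw [SetLike.mem_coe]
      have hv : v ∈ Submodule.span (Polynomial Q) (S : Set L) := by rw [hS']; exact Submodule.mem_top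
      change π (ι v) ∈ _
      induction hv using Submodule.span_induction with
      | mem x hx =>
        apply Submodule.subset_span
        rw [Finset.coe_image]
        exact ⟨x, hx, rfl⟩
      | zero =>
        rw [hι0, hπ0]
        exact Submodule.zero_mem _
      | add x y _ _ hx hy =>
        rw [hιadd, hπadd]
        exact Submodule.add_mem _ hx hy
      | smul r x _ hx =>
        rw [hιsmul, hπsmul, hf0, algebraMap_smul]
        exact Submodule.smul_mem _ _ hx
  have hMtop : Submodule.span (FractionRing Q) (M : Set (Fin 2 → FractionRing Q)) = ⊤ := by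
    have key : ∀ v : ↥(extL (Polynomial (FractionRing Q)) g L), π v ∈
        Submodule.span (FractionRing Q) (M : Set (Fin 2 → FractionRing Q)) := by
      rintro ⟨v, hv⟩
      unfold extL at hv
      induction hv using Submodule.span_induction with
      | mem x hx =>
        obtain ⟨w, hw, rfl⟩ := hx
        exact Submodule.subset_span (hMmem ⟨w, hw⟩)
      | zero =>
        have := hπ0
        change π 0 ∈ _
        rw [hπ0]
        exact Submodule.zero_mem _
      | add x y hx' hy' hx hy =>
        have h3 : (⟨x + y, add_mem hx' hy'⟩ : ↥(extL (Polynomial (FractionRing Q)) g L)) =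
          ⟨x, hx'⟩ + ⟨y, hy'⟩ := rfl
        have h4 := hπadd ⟨x, hx'⟩ ⟨y, hy'⟩
        rw [← h3] at h4
        rw [h4]
        exact Submodule.add_mem _ hx hy
      | smul r x hx' hx =>
        have h3 : (⟨r • x, Submodule.smul_mem _ _ hx'⟩ : ↥(extL (Polynomial (FractionRing Q)) g L)) =
          r • ⟨x, hx'⟩ := rfl
        have h4 := hπsmul r ⟨x, hx'⟩
        rw [← h3] at h4
        rw [h4]
        exact Submodule.smul_mem _ _ hx
    refine top_of_single fun i => ?_
    have h1 := key (b i)
    have h2 : π (b i) = Pi.single i 1 := by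
      funext j
      change (b.equivFun (b i) j).coeff 0 = _
      rw [Module.Basis.equivFun_self, Pi.single_apply]
      by_cases hij : i = j
      · rw [if_pos hij, if_pos hij.symm, Polynomial.coeff_one_zero]
      · rw [if_neg hij, if_neg (Ne.symm hij), Polynomial.coeff_zero]
    rwa [h2] at h1
  have hΓ : C Ψ.range := by
    refine Pool.Agent.U709.spec hC hS Ψ.range ?_
    have hle : Ψ.range.map (GeneralLinearGroup.map Polynomial.constantCoeff) ≤ GLL M := by
      rintro _ ⟨_, ⟨x, rfl⟩, rfl⟩
      have key : ∀ x : GLL L, ∀ w ∈ M,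
          (GeneralLinearGroup.map Polynomial.constantCoeff (Ψ x)).1 *ᵥ w ∈ M := by
        intro x w hw
        rw [hM] at hw
        induction hw using Submodule.span_induction with
        | mem w hw =>
          obtain ⟨v, rfl⟩ := hw
          change _ *ᵥ π (ι v) ∈ M
          rw [hact]
          exact hMmem _
        | zero =>
          rw [Matrix.mulVec_zero]
          exact Submodule.zero_mem _
        | add a b _ _ ha hb =>
          rw [Matrix.mulVec_add]
          exact Submodule.add_mem _ ha hb
        | smul r a _ ha =>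
          rw [← algebraMap_smul (FractionRing Q) r, Matrix.mulVec_smul, algebraMap_smul]
          exact Submodule.smul_mem _ _ ha
      refine ⟨key x, ?_⟩
      have h1 := key x⁻¹
      rw [map_inv, map_inv] at h1
      exact h1
    exact hC.base.of_injective _ _ (Subgroup.inclusion hle) (Subgroup.inclusion_injective hle)
      (h M hMfg hMtop)
  exact hC.base.of_injective _ _ (MonoidHom.ofInjective hΨ).toMonoidHom
    (MonoidHom.ofInjective hΨ).injective hΓ

/-- polynomial rings in finitely many variables -/
theorem LatC_mvFin (hC : ClosedE C) (hS : ∀ (G : Type) [Group G], Group.IsSolvable G → C G)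
    {Q : Type} [CommRing Q] [IsDomain Q] (h : LatC C Q) (m : ℕ) :
    LatC C (MvPolynomial (Fin m) Q) := by
  induction m with
  | zero =>
    exact LatC_sub hC (MvPolynomial.isEmptyAlgEquiv Q (Fin 0)).toRingEquiv.toRingHom
      (MvPolynomial.isEmptyAlgEquiv Q (Fin 0)).injective h
  | succ m ih =>
    exact LatC_sub hC (MvPolynomial.finSuccEquiv Q m).toRingEquiv.toRingHom
      (MvPolynomial.finSuccEquiv Q m).injective (LatC_poly hC hS ih)

end Pool.Agent.U293.FD
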